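import Mathlib

set_option autoImplicit false

/-!
# The left strong rank condition does not descend along Ore extensions with surjective twist

Take `R = k⟨x₀, x₁, x₂, …⟩`, the free algebra on countably many generators (here over `k = ℚ`),
let `σ` be the `k`-algebra endomorphism with `σ x₀ = 0` and `σ x_{i+1} = x_i`, which is
surjective, and let `δ = 0`.

* `R` fails the left strong rank condition: `(a, b) ↦ a x₀ + b x₁` embeds `R²` in `R`.
* `S = R[x; σ]` satisfies it: for every matrix `C` over `S` with more rows than columns there is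
  `d` with `x ^ d * C = c * x ^ d` where the matrix `c` has entries in the commutative polynomial
  ring `k[x]`; a nonzero row `w` over `k[x]` with `w * c = 0` gives `(w * x ^ d) * C = 0`.
-/

namespace Pool.Agent.Results.MP_5f6a82_al.SurjectiveTwist

/-- The left strong rank condition: for no positive integer `n` is there an injective
homomorphism of left `A`-modules `A ^ (n + 1) → A ^ n`. -/
def LSRC (A : Type) [Ring A] : Prop :=
  ∀ n : ℕ, 0 < n → ¬ ∃ f : (Fin (n + 1) → A) →ₗ[A] (Fin n → A), Function.Injective f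

/-- `δ` is a `σ`-derivation of the ring `R`. -/
structure IsSigmaDerivation {R : Type} [Ring R] (σ : R →+* R) (δ : R → R) : Prop where
  map_add : ∀ r s : R, δ (r + s) = δ r + δ s
  leibniz : ∀ r s : R, δ (r * s) = δ r * s + σ r * δ s

/-- The ring `S`, with the coefficient embedding `ι : R → S` and the variable `x : S`, is the
Ore extension `R[x; σ, δ]`: the rule `x r = σ(r) x + δ(r)` holds and every element of `S` is a
left polynomial `∑ rᵢ xⁱ` with uniquely determined coefficients `rᵢ ∈ R`. -/
structure IsOreExtension {R S : Type} [Ring R] [Ring S] (σ : R →+* R) (δ : R → R)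
    (ι : R →+* S) (x : S) : Prop where
  comm : ∀ r : R, x * ι r = ι (σ r) * x + ι (δ r)
  basis : ∀ s : S, ∃! p : ℕ →₀ R, s = p.sum (fun i r => ι r * x ^ i)

section General

variable {k R S : Type} [CommRing k] [Ring R] [Ring S] [Algebra k R]
  (σ : R →ₐ[k] R) (ι : R →+* S) (x : S)

/-- Powers of `x` move past coefficients. -/
lemma pow_mul_coeff (hcomm : ∀ r : R, x * ι r = ι (σ r) * x) (d : ℕ) (r : R) :
    x ^ d * ι r = ι (σ^[d] r) * x ^ d := by
  induction d generalizing r with
  | zero => simp
  | succ d ih =>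
    rw [pow_succ, mul_assoc, hcomm, ← mul_assoc, ih, Function.iterate_succ_apply, mul_assoc,
      ← pow_succ]

/-- If all coefficients become scalars under iteration of `σ`, the Ore extension `R[x;σ]`
satisfies the left strong rank condition. -/
theorem lsrc_of_eventually_scalar [Nontrivial k]
    (hore : IsOreExtension (σ : R →+* R) (fun _ => 0) ι x)
    (hinj : Function.Injective (algebraMap k R))
    (hev : ∀ r : R, ∃ d : ℕ, ∃ a : k, σ^[d] r = algebraMap k R a) : LSRC S := by
  classical
  have hcomm : ∀ r : R, x * ι r = ι (σ r) * x := by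
    intro r
    have := hore.comm r
    simpa using this
  have hcommk : ∀ a : k, Commute ((ι.comp (algebraMap k R)) a) x := by
    intro a
    show ι (algebraMap k R a) * x = x * ι (algebraMap k R a)
    rw [hcomm, σ.commutes]
  -- the ring homomorphism `k[X] → S`
  let P : Polynomial k →+* S := Polynomial.eval₂RingHom' (ι.comp (algebraMap k R)) x hcommk
  have hPC : ∀ a : k, P (Polynomial.C a) = ι (algebraMap k R a) := by
    intro a
    simp [P, Polynomial.eval₂RingHom']
  have hPX : P Polynomial.X = x := by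
    simp [P, Polynomial.eval₂RingHom']
  have hPcomm : ∀ q : Polynomial k, Commute (P q) x := by
    intro q
    have : Commute q Polynomial.X := Commute.all _ _
    have h2 := this.map P
    rwa [hPX] at h2
  -- monotonicity of eventual scalarity
  have hev' : ∀ r : R, ∃ d : ℕ, ∀ e : ℕ, d ≤ e → ∃ a : k, σ^[e] r = algebraMap k R a := by
    intro r
    obtain ⟨d, a, h⟩ := hev r
    refine ⟨d, fun e he => ⟨a, ?_⟩⟩
    obtain ⟨t, rfl⟩ := Nat.exists_eq_add_of_le he
    rw [add_comm, Function.iterate_add_apply, h]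
    clear h he
    induction t with
    | zero => rfl
    | succ t ih => rw [Function.iterate_succ_apply, σ.commutes, ih]
  -- for every element `s` of `S` there is `d` with `x ^ e * s ∈ P(k[X]) * x ^ e` for all `e ≥ d`
  have key : ∀ s : S, ∃ d : ℕ, ∀ e : ℕ, d ≤ e → ∃ q : Polynomial k, x ^ e * s = P q * x ^ e := by
    intro s
    obtain ⟨p, hp, -⟩ := hore.basis s
    have hp' : s = ∑ i ∈ p.support, ι (p i) * x ^ i := hp
    rw [hp']
    generalize p.support = T
    induction T using Finset.induction_on with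
    | empty => exact ⟨0, fun e _ => ⟨0, by simp⟩⟩
    | insert i T hi ih =>
      obtain ⟨d₁, h₁⟩ := ih
      obtain ⟨d₂, h₂⟩ := hev' (p i)
      refine ⟨max d₁ d₂, fun e he => ?_⟩
      obtain ⟨q₁, hq₁⟩ := h₁ e (le_trans (le_max_left _ _) he)
      obtain ⟨a, ha⟩ := h₂ e (le_trans (le_max_right _ _) he)
      refine ⟨Polynomial.C a * Polynomial.X ^ i + q₁, ?_⟩
      rw [Finset.sum_insert hi, mul_add, hq₁, map_add, add_mul, ← mul_assoc,
        pow_mul_coeff σ ι x hcomm, ha, map_mul, map_pow, hPC, hPX]
      congr 1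
      rw [mul_assoc, mul_assoc, ← pow_add, ← pow_add, add_comm]
  -- injectivity of `P`
  have hPinj : ∀ q : Polynomial k, P q = 0 → q = 0 := by
    intro q hq
    let p : ℕ →₀ R := Finsupp.onFinset q.support (fun i => algebraMap k R (q.coeff i)) (by
      intro i hi
      rw [Polynomial.mem_support_iff]
      intro h0
      apply hi
      rw [h0, map_zero])
    have hp : P q = p.sum (fun i r => ι r * x ^ i) := by
      rw [Finsupp.onFinset_sum _ (by intro i; simp)]
      simp only [P, Polynomial.eval₂RingHom', RingHom.coe_mk, MonoidHom.coe_mk, OneHom.coe_mk]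
      rw [Polynomial.eval₂_eq_sum]
      rfl
    obtain ⟨p₀, -, huniq⟩ := hore.basis 0
    have h1 : p = p₀ := huniq p (by simpa only [hq] using hp)
    have h2 : (0 : ℕ →₀ R) = p₀ := huniq 0 (by simp)
    have h3 : p = 0 := h1.trans h2.symm
    ext i
    have h4 : p i = 0 := by rw [h3]; rfl
    have h5 : algebraMap k R (q.coeff i) = 0 := h4
    rw [Polynomial.coeff_zero]
    exact hinj (by rw [h5, map_zero])
  intro n _ ⟨f, hf⟩
  -- the matrix of `f`
  let C : Fin (n + 1) → Fin n → S := fun i j => f (Pi.single i 1) j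
  choose D hD using key
  let d : ℕ := ∑ i, ∑ j, D (C i j)
  have hd : ∀ i j, D (C i j) ≤ d := by
    intro i j
    calc D (C i j) ≤ ∑ j, D (C i j) :=
          Finset.single_le_sum (f := fun j => D (C i j)) (fun _ _ => Nat.zero_le _)
            (Finset.mem_univ j)
      _ ≤ d := Finset.single_le_sum (f := fun i => ∑ j, D (C i j)) (fun _ _ => Nat.zero_le _)
            (Finset.mem_univ i)
  choose c hc using fun i j => hD (C i j) d (hd i j)
  -- a nonzero row over `k[X]` killing `c`
  obtain ⟨w, hw0, hw⟩ : ∃ w : Fin (n + 1) → Polynomial k, w ≠ 0 ∧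
      ∀ j, ∑ i, w i * c i j = 0 := by
    let g : (Fin (n + 1) → Polynomial k) →ₗ[Polynomial k] (Fin n → Polynomial k) :=
      Matrix.vecMulLinear (Matrix.of c)
    have hg : ¬ Function.Injective g := by
      intro hg
      have := le_of_fin_injective (Polynomial k) g hg
      omega
    rw [← LinearMap.ker_eq_bot, Submodule.eq_bot_iff] at hg
    push Not at hg
    obtain ⟨w, hw, hw0⟩ := hg
    refine ⟨w, hw0, fun j => ?_⟩
    have := congrFun (LinearMap.mem_ker.mp hw) j
    simpa [g, Matrix.vecMul, dotProduct] using this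
  let v : Fin (n + 1) → S := fun i => P (w i) * x ^ d
  have hfv : f v = 0 := by
    have hv : v = ∑ i, v i • (Pi.single i (1 : S) : Fin (n + 1) → S) := by
      ext j
      simp [Finset.sum_apply, Pi.single_apply]
    funext j
    rw [hv, map_sum, Finset.sum_apply]
    simp only [map_smul, Pi.smul_apply, smul_eq_mul, Pi.zero_apply]
    calc ∑ i, v i * f (Pi.single i 1) j = ∑ i, P (w i * c i j) * x ^ d := by
          refine Finset.sum_congr rfl fun i _ => ?_
          show P (w i) * x ^ d * C i j = _
          rw [mul_assoc, hc, ← mul_assoc, ← map_mul]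
      _ = P (∑ i, w i * c i j) * x ^ d := by rw [map_sum, Finset.sum_mul]
      _ = 0 := by rw [hw j, map_zero, zero_mul]
  have hv0 : v = 0 := hf (by rw [hfv, map_zero])
  apply hw0
  funext i
  have h1 : P (w i * Polynomial.X ^ d) = 0 := by
    rw [map_mul, map_pow, hPX]
    exact congrFun hv0 i
  have h2 := hPinj _ h1
  have h3 : (Polynomial.X ^ d : Polynomial k) * w i = 0 := by rw [mul_comm]; exact h2
  exact (Polynomial.monic_X_pow d).mul_right_eq_zero_iff.mp h3

end General

section Example

/-- The free algebra `ℚ⟨x₀, x₁, …⟩`. -/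
abbrev R : Type := FreeAlgebra ℚ ℕ

/-- The shift `x₀ ↦ 0`, `x_{i+1} ↦ x_i`. -/
noncomputable def σ : R →ₐ[ℚ] R :=
  FreeAlgebra.lift ℚ (fun n : ℕ => Nat.casesOn n (0 : R) (fun m => FreeAlgebra.ι ℚ m))

lemma σ_ι_zero : σ (FreeAlgebra.ι ℚ 0) = 0 := by
  simp [σ]

lemma σ_ι_succ (n : ℕ) : σ (FreeAlgebra.ι ℚ (n + 1)) = FreeAlgebra.ι ℚ n := by
  simp [σ]

lemma σ_surjective : Function.Surjective σ := by
  intro r
  induction r using FreeAlgebra.induction with
  | grade0 a => exact ⟨algebraMap ℚ R a, σ.commutes a⟩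
  | grade1 n => exact ⟨FreeAlgebra.ι ℚ (n + 1), σ_ι_succ n⟩
  | mul a b ha hb =>
    obtain ⟨a', rfl⟩ := ha
    obtain ⟨b', rfl⟩ := hb
    exact ⟨a' * b', map_mul _ _ _⟩
  | add a b ha hb =>
    obtain ⟨a', rfl⟩ := ha
    obtain ⟨b', rfl⟩ := hb
    exact ⟨a' + b', map_add _ _ _⟩

lemma σ_iterate_algebraMap (e : ℕ) (a : ℚ) : σ^[e] (algebraMap ℚ R a) = algebraMap ℚ R a := by
  induction e with
  | zero => rfl
  | succ e ih => rw [Function.iterate_succ_apply, σ.commutes, ih]

lemma σ_iterate_ι (n : ℕ) : σ^[n + 1] (FreeAlgebra.ι ℚ n) = 0 := by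
  induction n with
  | zero => simpa using σ_ι_zero
  | succ n ih => rw [Function.iterate_succ_apply, σ_ι_succ, ih]

lemma σ_eventually (r : R) : ∃ d : ℕ, ∀ e : ℕ, d ≤ e → ∃ a : ℚ, σ^[e] r = algebraMap ℚ R a := by
  induction r using FreeAlgebra.induction with
  | grade0 a => exact ⟨0, fun e _ => ⟨a, σ_iterate_algebraMap e a⟩⟩
  | grade1 n =>
    refine ⟨n + 1, fun e he => ⟨0, ?_⟩⟩
    obtain ⟨t, rfl⟩ := Nat.exists_eq_add_of_le he
    rw [add_comm, Function.iterate_add_apply, σ_iterate_ι, iterate_map_zero, map_zero]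
  | mul a b ha hb =>
    obtain ⟨d₁, h₁⟩ := ha
    obtain ⟨d₂, h₂⟩ := hb
    refine ⟨max d₁ d₂, fun e he => ?_⟩
    obtain ⟨a₁, ha₁⟩ := h₁ e (le_trans (le_max_left _ _) he)
    obtain ⟨a₂, ha₂⟩ := h₂ e (le_trans (le_max_right _ _) he)
    exact ⟨a₁ * a₂, by rw [iterate_map_mul, ha₁, ha₂, map_mul]⟩
  | add a b ha hb =>
    obtain ⟨d₁, h₁⟩ := ha
    obtain ⟨d₂, h₂⟩ := hb
    refine ⟨max d₁ d₂, fun e he => ?_⟩
    obtain ⟨a₁, ha₁⟩ := h₁ e (le_trans (le_max_left _ _) he)
    obtain ⟨a₂, ha₂⟩ := h₂ e (le_trans (le_max_right _ _) he)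
    exact ⟨a₁ + a₂, by rw [iterate_map_add, ha₁, ha₂, map_add]⟩

/-- The two left ideals `R x₀` and `R x₁` are free and independent. -/
lemma eq_zero_of_relation (a b : R)
    (h : a * FreeAlgebra.ι ℚ 0 + b * FreeAlgebra.ι ℚ 1 = 0) : a = 0 ∧ b = 0 := by
  let φ := FreeAlgebra.equivMonoidAlgebraFreeMonoid (R := ℚ) (X := ℕ)
  have hφ : ∀ n : ℕ, φ (FreeAlgebra.ι ℚ n) =
      MonoidAlgebra.single (FreeMonoid.of n) (1 : ℚ) := by
    intro n
    simp [φ, FreeAlgebra.equivMonoidAlgebraFreeMonoid, MonoidAlgebra.of_apply]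
  have h1 : φ a * MonoidAlgebra.single (FreeMonoid.of 0) (1 : ℚ) +
      φ b * MonoidAlgebra.single (FreeMonoid.of 1) (1 : ℚ) = 0 := by
    rw [← hφ, ← hφ, ← map_mul, ← map_mul, ← map_add, h, map_zero]
  have hne : ∀ (m n : ℕ), m ≠ n → ∀ w d : FreeMonoid ℕ,
      d * FreeMonoid.of m ≠ w * FreeMonoid.of n := by
    intro m n hmn w d he
    have h2 := congrArg FreeMonoid.toList he
    simp only [FreeMonoid.toList_mul, FreeMonoid.toList_of] at h2
    have h3 := congrArg List.getLast? h2
    simp at h3
    exact hmn h3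
  constructor
  · have : φ a = 0 := by
      ext w
      have h2 := congrArg (fun z => MonoidAlgebra.coeff z (w * FreeMonoid.of 0)) h1
      simp only [MonoidAlgebra.coeff_add, Finsupp.add_apply,
        MonoidAlgebra.coeff_mul_single_mul] at h2
      rw [MonoidAlgebra.coeff_mul_single_of_forall_mul_ne _ _ (hne 1 0 (by norm_num) w)] at h2
      simpa using h2
    exact (map_eq_zero_iff φ φ.injective).mp this
  · have : φ b = 0 := by
      ext w
      have h2 := congrArg (fun z => MonoidAlgebra.coeff z (w * FreeMonoid.of 1)) h1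
      simp only [MonoidAlgebra.coeff_add, Finsupp.add_apply,
        MonoidAlgebra.coeff_mul_single_mul] at h2
      rw [MonoidAlgebra.coeff_mul_single_of_forall_mul_ne _ _ (hne 0 1 (by norm_num) w)] at h2
      simpa using h2
    exact (map_eq_zero_iff φ φ.injective).mp this

lemma not_lsrc_R : ¬ LSRC R := by
  intro h
  apply h 1 one_pos
  refine ⟨{ toFun := fun v _ => v 0 * FreeAlgebra.ι ℚ 0 + v 1 * FreeAlgebra.ι ℚ 1
            map_add' := ?_
            map_smul' := ?_ }, ?_⟩
  · intro v w
    funext i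
    simp only [Pi.add_apply, add_mul]
    abel
  · intro c v
    funext i
    simp only [Pi.smul_apply, smul_eq_mul, RingHom.id_apply, mul_add, mul_assoc]
  · rw [← LinearMap.ker_eq_bot, Submodule.eq_bot_iff]
    intro v hv
    have h1 := congrFun (LinearMap.mem_ker.mp hv) 0
    obtain ⟨h2, h3⟩ := eq_zero_of_relation (v 0) (v 1) h1
    funext i
    fin_cases i
    · exact h2
    · exact h3

/-- `ℕ` acts on `R` through the powers of `σ`. -/
@[instance_reducible]
noncomputable def action : MulSemiringAction (Multiplicative ℕ) R :=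
  MulSemiringAction.compHom R (powersHom (R →+* R) (σ : R →+* R))

/-- The skew polynomial ring `R[x; σ]` satisfies the description of an Ore extension. -/
lemma exists_ore : ∃ (S : Type) (_ : Ring S) (ι : R →+* S) (x : S),
    IsOreExtension (σ : R →+* R) (fun _ => 0) ι x := by
  let _ : MulSemiringAction (Multiplicative ℕ) R := action
  have hφ : ∀ r : R, (SkewPolynomial.φ : R →+* R) r = σ r := by
    intro r
    show (powersHom (R →+* R) (σ : R →+* R) (Multiplicative.ofAdd 1)) • r = _
    simp [powersHom]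
  refine ⟨SkewPolynomial R, inferInstance, SkewPolynomial.CRingHom, SkewPolynomial.X, ?_, ?_⟩
  · intro r
    rw [map_zero, add_zero, SkewPolynomial.CRingHom_eq_C, SkewPolynomial.CRingHom_eq_C,
      SkewPolynomial.C_mul_X_eq_monomial, ← SkewPolynomial.monomial_zero_left,
      SkewPolynomial.X_mul_monomial, hφ]
    rfl
  · intro s
    have hcoeff : ∀ (p : ℕ →₀ R) (n : ℕ),
        SkewPolynomial.coeff (p.sum (fun i r => SkewPolynomial.CRingHom r *
          (SkewPolynomial.X : SkewPolynomial R) ^ i)) n = p n := by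
      intro p n
      induction p using Finsupp.induction_linear with
      | zero => simp
      | add f g hf hg =>
        rw [Finsupp.sum_add_index' (by simp) (by intro i a b; rw [map_add, add_mul])]
        rw [Finsupp.add_apply, ← hf, ← hg]
        simp only [SkewPolynomial.coeff, SkewMonoidAlgebra.coeff_add, Finsupp.add_apply]
      | single i a =>
        rw [Finsupp.sum_single_index (by simp), SkewPolynomial.CRingHom_eq_C,
          SkewPolynomial.C_mul_X_pow_eq_monomial, SkewPolynomial.coeff_monomial,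
          Finsupp.single_apply]
    have hmap : ∀ n : ℕ, Finsupp.mapDomain Multiplicative.toAdd
        (SkewMonoidAlgebra.coeff s) n = SkewPolynomial.coeff s n := by
      intro n
      exact Finsupp.mapDomain_apply (f := Multiplicative.toAdd)
        (Multiplicative.toAdd.injective) (SkewMonoidAlgebra.coeff s) (Multiplicative.ofAdd n)
    refine ⟨Finsupp.mapDomain Multiplicative.toAdd (SkewMonoidAlgebra.coeff s), ?_, ?_⟩
    · show s = _
      rw [SkewPolynomial.ext_iff]
      intro n
      rw [hcoeff, hmap]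
    · intro p hp
      have hp' : s = p.sum (fun i r => SkewPolynomial.CRingHom r *
          (SkewPolynomial.X : SkewPolynomial R) ^ i) := hp
      ext n
      rw [← hcoeff p n, ← hp', hmap]

end Example

/-- There are a ring `R`, a surjective ring endomorphism `σ` of `R`, a `σ`-derivation `δ` of `R`
and an Ore extension `S = R[x; σ, δ]` such that `S` satisfies the left strong rank condition
while `R` does not. -/
theorem result :
    ∃ (R S : Type) (_ : Ring R) (_ : Ring S) (σ : R →+* R) (δ : R → R) (ι : R →+* S) (x : S),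
      Function.Surjective σ ∧ IsSigmaDerivation σ δ ∧ IsOreExtension σ δ ι x ∧
      LSRC S ∧ ¬ LSRC R := by
  obtain ⟨S, _, ι, x, hore⟩ := exists_ore
  refine ⟨R, S, inferInstance, inferInstance, σ, fun _ => 0, ι, x, σ_surjective,
    ⟨by simp, by simp⟩, hore, ?_, not_lsrc_R⟩
  refine lsrc_of_eventually_scalar (k := ℚ) σ ι x hore
    FreeAlgebra.algebraMap_leftInverse.injective ?_
  intro r
  obtain ⟨d, hd⟩ := σ_eventually r
  exact ⟨d, hd d le_rfl⟩

end Pool.Agent.Results.MP_5f6a82_al.SurjectiveTwist
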